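import Pool.Agent.Helper77.UN.Defs
import Pool.Agent.Helper57.CR.CNT

/-!
# The weights of the minima and maxima (UN-WE)
-/

namespace Pool.Agent.Helper77.UN

open Finset
open Pool.Agent.Helper9.Kashaev (Piece Diagram)
open Pool.Agent.Helper9.FA (Item Cor Ang twists wfP labels)
open Pool.Agent.Helper9.TW (Lab Conn)
open Pool.Agent.Helper28.TX (PV Pot)
open Pool.Agent.Helper77.ST
open Pool.Agent.Helper77.CR (Uni All ids cor mE EU ncup ncap bz Red)

variable {F : Type*} [Field F]

namespace WE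

/-- the sum of the squares of the differences of neighbours -/
def sq : List ℤ → ℤ
  | x :: y :: r => (y - x) ^ 2 + sq (y :: r)
  | _ => 0

/-- squares at the maxima minus squares at the minima -/
def cs (e : List (Bool × ℤ × ℤ)) : ℤ :=
  (e.map fun y => if y.1 = true then -(y.2.2 - y.2.1) ^ 2 else (y.2.2 - y.2.1) ^ 2).sum

lemma sq_app (l r : List ℤ) (a : ℤ) : sq (l ++ a :: r) = sq (l ++ [a]) + sq (a :: r) := by
  induction l with
  | nil => simp [sq]
  | cons x l ih =>
    cases l with
    | nil => simp [sq]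
    | cons y l =>
      simp only [List.cons_append, sq] at ih ⊢
      rw [ih]; ring

lemma sq_ext (l r : List ℤ) (a m : ℤ) :
    sq (l ++ a :: m :: a :: r) = sq (l ++ a :: r) + 2 * (m - a) ^ 2 := by
  rw [sq_app, sq_app l r a]
  simp only [sq]
  ring

lemma sq_box (l r : List ℤ) (q : PV ℤ) :
    sq (l ++ q.L :: q.B :: q.R :: r) = sq (l ++ q.L :: q.T :: q.R :: r) - 2 * dvx q := by
  rw [sq_app, sq_app l (q.T :: q.R :: r)]
  simp only [sq, dvx]
  ring

lemma sq_pot {α : Type} {P : List (Item α)} {k0 k1 : ℤ} {s : List ℤ} {θ : List (PV ℤ)}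
    {e : List (Bool × ℤ × ℤ)} (h : Pot k0 k1 P s θ e) :
    sq s = (k1 - k0) ^ 2 + 2 * cs e - 2 * (θ.map dvx).sum := by
  induction h with
  | nil => simp [sq, cs]
  | cup h ih =>
    rw [sq_ext] at ih
    simp only [cs, List.map_cons, List.sum_cons, if_true] at ih ⊢
    linarith
  | cap h ih =>
    rw [sq_ext, ih]
    simp only [cs, List.map_cons, List.sum_cons, Bool.false_eq_true, if_false]
    ring
  | box h ih =>
    rw [sq_box, ih]
    simp only [List.map_cons, List.sum_cons]
    ring

/-- linear identity at the levels -/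
lemma sum_pot {α : Type} {P : List (Item α)} {k0 k1 : ℤ} {s : List ℤ} {θ : List (PV ℤ)}
    {e : List (Bool × ℤ × ℤ)} (h : Pot k0 k1 P s θ e) :
    s.sum = k0 + k1 + (θ.map fun q => q.B - q.T).sum +
      (e.map fun y => if y.1 = true then -(y.2.1 + y.2.2) else y.2.1 + y.2.2).sum := by
  induction h with
  | nil => simp
  | cup h ih =>
    simp only [List.sum_append, List.sum_cons, List.map_cons, if_true] at ih ⊢
    linarith
  | cap h ih =>
    simp only [List.sum_append, List.sum_cons, List.map_cons, Bool.false_eq_true, if_false] at ih ⊢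
    linarith
  | box h ih =>
    simp only [List.sum_append, List.sum_cons, List.map_cons] at ih ⊢
    linarith

lemma neg_one_zpow_add_two_mul (a b : ℤ) : (-1 : F) ^ (a + 2 * b) = (-1) ^ a := by
  rw [zpow_add₀ (by simp), zpow_mul]
  simp

lemma we_eq (P : Par F) (y : Bool × ℤ × ℤ) (hy : |y.2.2 - y.2.1| ≤ P.l) :
    we P y = (-1) ^ ((P.l : ℤ) + (y.2.2 - y.2.1)) *
      P.v ^ ((if y.1 = true then (1 : ℤ) else -1) * ((P.l : ℤ) * (P.l - 1)) +
        (if y.1 = true then -(y.2.2 - y.2.1) ^ 2 else (y.2.2 - y.2.1) ^ 2) + (y.2.2 - y.2.1)) := by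
  obtain ⟨b, x, z⟩ := y
  obtain ⟨w, hw⟩ : ∃ w : ℤ, w = z - x := ⟨_, rfl⟩
  simp only at hy ⊢
  rw [← hw] at hy ⊢
  rw [abs_le] at hy
  obtain ⟨i, hi⟩ : ∃ i : ℕ, (i : ℤ) = (P.l : ℤ) - w := ⟨((P.l : ℤ) - w).toNat, by omega⟩
  have hst : stt P.l x z = i := by
    unfold stt
    rw [← hw, ← hi]
    simp
  have hN : (P.N : ℤ) = 2 * P.l + 1 := by rw [P.N_eq]; push_cast; ring
  cases b
  · simp only [we, Bool.false_eq_true, if_false, hst, capC]
    have hj : ((P.N - 1 - i : ℕ) : ℤ) = P.l + w := by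
      rw [P.N_eq]
      omega
    obtain ⟨j, hj'⟩ : ∃ j : ℕ, j = P.N - 1 - i := ⟨_, rfl⟩
    rw [← hj'] at hj ⊢
    unfold cupC
    rw [mul_inv, ← zpow_natCast, hj, hN]
    congr 1
    · rw [← inv_zpow]
      norm_num
    · rw [← zpow_neg]
      congr 1
      ring
  · simp only [we, if_true, hst]
    unfold cupC
    rw [← zpow_natCast, hi, hN]
    congr 1
    · rw [show (P.l : ℤ) - w = P.l + w + 2 * (-w) by ring, neg_one_zpow_add_two_mul]
    · congr 1
      ring

lemma prod_we (P : Par F) (e : List (Bool × ℤ × ℤ)) (he : ∀ z ∈ e, |z.2.2 - z.2.1| ≤ P.l) :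
    (e.map (we P)).prod = (-1) ^ ((P.l : ℤ) * (ncup e + ncap e) + sE e) *
      P.v ^ (((ncup e : ℤ) - ncap e) * ((P.l : ℤ) * (P.l - 1)) + cs e + sE e) := by
  induction e with
  | nil => simp [ncup, ncap, sE, cs]
  | cons y e ih =>
    have h1 := ih fun z hz => he z (List.mem_cons_of_mem _ hz)
    rw [List.map_cons, List.prod_cons, h1, we_eq P y (he y List.mem_cons_self)]
    have hm : (-1 : F) ≠ 0 := by simp
    obtain ⟨b, x, z⟩ := y
    have e1 : ∀ a b c d : F, (a * b) * (c * d) = (a * c) * (b * d) := fun a b c d => by ring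
    rw [e1, ← zpow_add₀ hm, ← zpow_add₀ P.v0]
    cases b
    · have e2 : ncup ((false, x, z) :: e) = ncup e := by simp [ncup]
      have e3 : ncap ((false, x, z) :: e) = ncap e + 1 := by simp [ncap]
      rw [e2, e3]
      congr 2
      · simp only [sE, List.map_cons, List.sum_cons]
        push_cast
        ring
      · simp only [sE, cs, List.map_cons, List.sum_cons, Bool.false_eq_true, if_false]
        push_cast
        ring
    · have e2 : ncup ((true, x, z) :: e) = ncup e + 1 := by simp [ncup]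
      have e3 : ncap ((true, x, z) :: e) = ncap e := by simp [ncap]
      rw [e2, e3]
      congr 2
      · simp only [sE, List.map_cons, List.sum_cons]
        push_cast
        ring
      · simp only [sE, cs, List.map_cons, List.sum_cons, if_true]
        push_cast
        ring

end WE

open WE

theorem we_prod (P : Par F) {S : List (Item Unit)} {θ : List (PV ℤ)} {e : List (Bool × ℤ × ℤ)}
    (h : Pot 0 (P.l : ℤ) S [0, (P.l : ℤ)] θ e) (he : ∀ z ∈ e, |z.2.2 - z.2.1| ≤ P.l) :
    (e.map (we P)).prod = (-1) ^ (sE e) * P.v ^ (sE e + (θ.map dvx).sum) := by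
  have h1 := sq_pot h
  have h2 : ncup e = ncap e := by
    have := (CR.pot_count h).2
    simp at this
    omega
  have h3 : cs e = (θ.map dvx).sum := by
    simp only [WE.sq] at h1
    linarith
  rw [prod_we P e he, h2, h3]
  congr 1
  · rw [show (P.l : ℤ) * ((ncap e : ℤ) + ncap e) + sE e = sE e + 2 * (P.l * ncap e) by ring,
      neg_one_zpow_add_two_mul]
  · congr 1
    ring

theorem sE_eq {S : List (Item Unit)} (hc : Conn S) {c0 c1 : ℕ} {θ : List (PV ℕ)}
    {e : List (Bool × ℕ × ℕ)} (hU : Uni S c0 c1 [c0, c1] θ e) (h : ℕ → ℤ) :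
    sE (mE h e) = 2 * ∑ x ∈ All c0 c1 θ e, h x - (θ.map fun q => h q.B + h q.T).sum := by
  obtain ⟨hne, -, hE1, hE0, hE0'⟩ := CR.Cnt.main hc hU
  have h1 := sum_pot (CR.pot_map h hU.pot)
  have h2 := CR.Cnt.EU_lin (ids [c0, c1] θ e) (fun x => (h x : ℝ)) θ e
    (fun q hq => CR.Cnt.mem_ids_cor hq (by simp [cor])) (fun y hy => CR.Cnt.mem_ids_e hy)
  have hn1 : c0 ∉ insert c1 (All c0 c1 θ e) := by
    simp only [Finset.mem_insert, not_or]
    exact ⟨hne, CR.Cnt.c0_notMem _ _ _ _⟩
  rw [CR.Cnt.ids_split, Finset.sum_insert hn1, Finset.sum_insert (CR.Cnt.c1_notMem _ _ _ _),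
    hE0, hE0', Finset.sum_congr rfl fun F hF' => by rw [hE1 F hF']] at h2
  simp only [Int.cast_zero, mul_zero, zero_add, Int.cast_one, mul_one] at h2
  have h3 : (θ.map fun q => h q.T).sum + (e.map fun y => if y.1 = true then h y.2.2 else
      -h y.2.1).sum = ∑ x ∈ All c0 c1 θ e, h x := by
    have e1 : ((θ.map fun q => h q.T).sum : ℝ) = (θ.map fun q => (h q.T : ℝ)).sum := by
      simp [Int.cast_list_sum, List.map_map, Function.comp_def]
    have e2 : (((e.map fun y => if y.1 = true then h y.2.2 else -h y.2.1).sum : ℤ) : ℝ) =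
        (e.map fun y => if y.1 = true then (h y.2.2 : ℝ) else -(h y.2.1 : ℝ)).sum := by
      rw [Int.cast_list_sum, List.map_map]
      congr 1
      refine List.map_congr_left fun y _ => ?_
      simp only [Function.comp_def]
      split_ifs <;> push_cast <;> rfl
    have : (((θ.map fun q => h q.T).sum + (e.map fun y => if y.1 = true then h y.2.2 else
      -h y.2.1).sum : ℤ) : ℝ) = ((∑ x ∈ All c0 c1 θ e, h x : ℤ) : ℝ) := by
      rw [Int.cast_add, Int.cast_sum, e1, e2, ← h2]
    exact_mod_cast this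
  rw [← h3]
  have e4 : (([c0, c1].map h).sum : ℤ) = h c0 + h c1 := by simp
  rw [e4] at h1
  have e5 : ((θ.map (PV.map h)).map fun q => q.B - q.T).sum =
      (θ.map fun q => h q.B + h q.T).sum - 2 * (θ.map fun q => h q.T).sum := by
    clear h1 h2 h3 hE1 hE0 hE0' hn1 hU
    induction θ with
    | nil => simp
    | cons q θ ih =>
      simp only [List.map_cons, List.sum_cons] at ih ⊢
      rw [ih]
      simp only [PV.map]
      ring
  have e6 : ((mE h e).map fun y => if y.1 = true then -(y.2.1 + y.2.2) else y.2.1 + y.2.2).sum =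
      sE (mE h e) - 2 * (e.map fun y => if y.1 = true then h y.2.2 else -h y.2.1).sum := by
    clear h1 h2 h3 hE1 hE0 hE0' hn1 hU
    induction e with
    | nil => simp [mE, sE]
    | cons y e ih =>
      simp only [mE, sE, List.map_cons, List.sum_cons] at ih ⊢
      rw [ih]
      split_ifs <;> ring
  rw [e5, e6] at h1
  linarith

end Pool.Agent.Helper77.UN
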